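import Pool.Agent.MPedc851.Words2

set_option autoImplicit false

namespace Pool.Agent.Results.MP_edc851_co.ArborHStar

open Polynomial Pointwise

/-- An arbor of size `n`: a rooted tree whose vertices are the blocks of a set partition of an
`n`-element set (here `Fin n`). The tree is given by its root and its parent map, with the
convention that the root is its own parent; every vertex reaches the root by iterating `parent`. -/
structure Arbor (n : ℕ) where
  /-- the set partition -/
  blocks : Finpartition (Finset.univ : Finset (Fin n))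
  /-- the root block -/
  root : {B : Finset (Fin n) // B ∈ blocks.parts}
  /-- the parent of a block -/
  parent : {B : Finset (Fin n) // B ∈ blocks.parts} → {B : Finset (Fin n) // B ∈ blocks.parts}
  /-- convention at the root -/
  parent_root : parent root = root
  /-- every block is a descendant of the root -/
  reaches_root : ∀ v, ∃ k : ℕ, parent^[k] v = root

/-- The vertices of an arbor. -/
abbrev Arbor.Vertex {n : ℕ} (τ : Arbor n) : Type := {B : Finset (Fin n) // B ∈ τ.blocks.parts}

open Classical in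
/-- `D τ v` is the union of the block `v` with all blocks that are descendants of `v`. -/
noncomputable def D {n : ℕ} (τ : Arbor n) (v : τ.Vertex) : Finset (Fin n) :=
  Finset.univ.filter (fun i => ∃ u : τ.Vertex, i ∈ u.1 ∧ ∃ k : ℕ, τ.parent^[k] u = v)

/-- The arbor polytope. -/
def polytope {n : ℕ} (τ : Arbor n) : Set (Fin n → ℝ) :=
  {x | (∀ i, 0 ≤ x i) ∧ ∀ v : τ.Vertex, ∑ i ∈ D τ v, x i ≤ ((D τ v).card : ℝ)}

/-- The number of lattice points of the dilate `m • P`. -/
noncomputable def latticePoints {n : ℕ} (P : Set (Fin n → ℝ)) (m : ℕ) : ℕ :=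
  Nat.card {z : Fin n → ℤ // (fun i => (z i : ℝ)) ∈ (m : ℝ) • P}

/-- `h` is the h*-polynomial of `P ⊂ ℝ^n`:
`∑_{m ≥ 0} #(mP ∩ ℤ^n) t^m = h(t) / (1 - t)^(n+1)` as formal power series. -/
def IsHStar {n : ℕ} (P : Set (Fin n → ℝ)) (h : ℤ[X]) : Prop :=
  PowerSeries.mk (fun m => (latticePoints P m : ℤ)) * (1 - PowerSeries.X) ^ (n + 1) =
    (h : PowerSeries ℤ)

/-- Number of descents of a word: the number of `i` with `i + 1 < n` and `w i > w (i + 1)`. -/
def des {n : ℕ} (w : Fin n → Fin n) : ℕ :=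
  (Finset.univ.filter (fun i : Fin n => ∃ h : i.val + 1 < n, w ⟨i.val + 1, h⟩ < w i)).card

open Classical in
/-- The words `w ∈ [n]^n` such that for every vertex `v`, `#{j : w_j ∈ D(v)} ≥ |D(v)|`. -/
noncomputable def words {n : ℕ} (τ : Arbor n) : Finset (Fin n → Fin n) :=
  Finset.univ.filter (fun w => ∀ v : τ.Vertex,
    (D τ v).card ≤ (Finset.univ.filter (fun j => w j ∈ D τ v)).card)

/-! ### Proof -/

open Pool.Agent.MPedc851

open Classical in
lemma mem_D {n : ℕ} {τ : Arbor n} {v : τ.Vertex} {i : Fin n} :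
    i ∈ D τ v ↔ ∃ u : τ.Vertex, i ∈ u.1 ∧ ∃ k : ℕ, τ.parent^[k] u = v := by
  unfold D
  rw [Finset.mem_filter]
  exact ⟨fun h => h.2, fun h => ⟨Finset.mem_univ _, h⟩⟩

lemma block_unique {n : ℕ} {τ : Arbor n} {u v : τ.Vertex} {i : Fin n} (hu : i ∈ u.1)
    (hv : i ∈ v.1) : u = v := by
  apply Subtype.ext
  by_contra hne
  have := τ.blocks.disjoint u.2 v.2 hne
  exact Finset.disjoint_left.1 this hu hv

open Classical in
/-- The family of the sets `D τ v`. -/
noncomputable def fam {n : ℕ} (τ : Arbor n) : Finset (Finset (Fin n)) :=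
  Finset.univ.image (D τ)

lemma mem_fam {n : ℕ} {τ : Arbor n} {F : Finset (Fin n)} : F ∈ fam τ ↔ ∃ v, D τ v = F := by
  unfold fam
  simp

lemma lam_fam {n : ℕ} (τ : Arbor n) : Lam (fam τ) := by
  have key : ∀ (u v : τ.Vertex) (i : Fin n) (b : τ.Vertex) (j k : ℕ), τ.parent^[j] b = u →
      τ.parent^[k] b = v → j ≤ k → D τ u ⊆ D τ v := by
    intro u v i b j k h1 h2 hjk x hx
    rw [mem_D] at hx ⊢
    obtain ⟨b', hb', l, hl⟩ := hx
    refine ⟨b', hb', (k - j) + l, ?_⟩
    rw [Function.iterate_add_apply, hl, ← h1, ← Function.iterate_add_apply]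
    have : k - j + j = k := by omega
    rw [this, h2]
  intro F hF G hG
  rw [mem_fam] at hF hG
  obtain ⟨u, rfl⟩ := hF
  obtain ⟨v, rfl⟩ := hG
  by_cases hd : Disjoint (D τ u) (D τ v)
  · right; right; exact hd
  · rw [Finset.not_disjoint_iff] at hd
    obtain ⟨i, hi, hi'⟩ := hd
    rw [mem_D] at hi hi'
    obtain ⟨b, hb, j, hj⟩ := hi
    obtain ⟨b', hb', k, hk⟩ := hi'
    have hbb : b = b' := block_unique hb hb'
    subst hbb
    rcases le_total j k with h | h
    · left; exact key u v i b j k hj hk h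
    · right; left; exact key v u i b k j hk hj h

lemma D_root {n : ℕ} (τ : Arbor n) : D τ τ.root = Finset.univ := by
  ext i
  rw [mem_D]
  constructor
  · intro _; exact Finset.mem_univ _
  · intro _
    have hi : i ∈ (Finset.univ : Finset (Fin n)) := Finset.mem_univ _
    obtain ⟨B, hB, hiB⟩ := τ.blocks.exists_mem hi
    exact ⟨⟨B, hB⟩, hiB, τ.reaches_root ⟨B, hB⟩⟩

lemma univ_mem_fam {n : ℕ} (τ : Arbor n) : (Finset.univ : Finset (Fin n)) ∈ fam τ := by
  rw [mem_fam]
  exact ⟨τ.root, D_root τ⟩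

lemma mem_smul_polytope {n : ℕ} (τ : Arbor n) (m : ℕ) (x : Fin n → ℝ) :
    x ∈ (m : ℝ) • polytope τ ↔
      (∀ i, 0 ≤ x i) ∧ ∀ v : τ.Vertex, ∑ i ∈ D τ v, x i ≤ (m : ℝ) * ((D τ v).card : ℝ) := by
  rcases Nat.eq_zero_or_pos m with h | h
  · subst h
    have hne : (polytope τ).Nonempty := by
      refine ⟨0, ?_, ?_⟩
      · intro i; exact le_rfl
      · intro v; simp
    rw [Nat.cast_zero, Set.zero_smul_set hne]
    constructor
    · intro hx
      have : x = 0 := hx
      subst this
      simp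
    · rintro ⟨h1, h2⟩
      have h3 := h2 τ.root
      rw [D_root, zero_mul] at h3
      have h4 : ∑ i, x i = 0 := le_antisymm h3 (Finset.sum_nonneg (fun i _ => h1 i))
      rw [Finset.sum_eq_zero_iff_of_nonneg (fun i _ => h1 i)] at h4
      have : x = 0 := by
        funext i
        exact h4 i (Finset.mem_univ i)
      exact this
  · have hm : (0 : ℝ) < m := by exact_mod_cast h
    rw [Set.mem_smul_set_iff_inv_smul_mem₀ hm.ne']
    unfold polytope
    rw [Set.mem_ofPred_eq]
    constructor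
    · rintro ⟨h1, h2⟩
      refine ⟨?_, ?_⟩
      · intro i
        have := h1 i
        rw [Pi.smul_apply, smul_eq_mul] at this
        have h3 := mul_nonneg hm.le this
        rwa [mul_inv_cancel_left₀ hm.ne'] at h3
      · intro v
        have := h2 v
        simp only [Pi.smul_apply, smul_eq_mul] at this
        rw [← Finset.mul_sum, inv_mul_le_iff₀ hm] at this
        exact this
    · rintro ⟨h1, h2⟩
      refine ⟨?_, ?_⟩
      · intro i
        rw [Pi.smul_apply, smul_eq_mul]
        exact mul_nonneg (inv_nonneg.2 hm.le) (h1 i)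
      · intro v
        simp only [Pi.smul_apply, smul_eq_mul]
        rw [← Finset.mul_sum, inv_mul_le_iff₀ hm]
        exact h2 v

lemma latticePoints_eq {n : ℕ} (τ : Arbor n) (m : ℕ) :
    latticePoints (polytope τ) m =
      (PB m (Finset.univ : Finset (Fin n)) (fam τ) (m * Fintype.card (Fin n))).card := by
  unfold latticePoints
  have hcard : Nat.card {x // x ∈ PB m (Finset.univ : Finset (Fin n)) (fam τ)
      (m * Fintype.card (Fin n))} = (PB m (Finset.univ : Finset (Fin n)) (fam τ)
      (m * Fintype.card (Fin n))).card := by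
    rw [Nat.card_eq_fintype_card, Fintype.card_coe]
  rw [← hcard]
  refine Nat.card_congr ?_
  refine
    { toFun := fun z => ⟨fun i => (z.1 i).toNat, ?_⟩
      invFun := fun x => ⟨fun i => (x.1 i : ℤ), ?_⟩
      left_inv := ?_
      right_inv := ?_ }
  · have hz := (mem_smul_polytope τ m _).1 z.2
    obtain ⟨h1, h2⟩ := hz
    have h1' : ∀ i, 0 ≤ z.1 i := fun i => by exact_mod_cast h1 i
    have h2' : ∀ F ∈ fam τ, ∑ i ∈ F, (z.1 i).toNat ≤ m * F.card := by
      intro F hF
      rw [mem_fam] at hF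
      obtain ⟨v, rfl⟩ := hF
      have h3 := h2 v
      have h4 : (∑ i ∈ D τ v, z.1 i) ≤ (m : ℤ) * ((D τ v).card : ℤ) := by
        exact_mod_cast h3
      have h5 : (∑ i ∈ D τ v, z.1 i) = ((∑ i ∈ D τ v, (z.1 i).toNat : ℕ) : ℤ) := by
        rw [Nat.cast_sum]
        apply Finset.sum_congr rfl
        intro i _
        exact (Int.toNat_of_nonneg (h1' i)).symm
      rw [h5] at h4
      exact_mod_cast h4
    rw [mem_PB]
    refine ⟨fun i hi => absurd (Finset.mem_univ i) hi, h2', ?_⟩
    have := h2' _ (univ_mem_fam τ)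
    rwa [Finset.card_univ] at this
  · have hx := x.2
    rw [mem_PB] at hx
    obtain ⟨_, h2, _⟩ := hx
    rw [mem_smul_polytope]
    refine ⟨?_, ?_⟩
    · intro i
      positivity
    · intro v
      have h3 := h2 (D τ v) (mem_fam.2 ⟨v, rfl⟩)
      have h4 : ((∑ i ∈ D τ v, x.1 i : ℕ) : ℝ) ≤ ((m * (D τ v).card : ℕ) : ℝ) := by
        exact_mod_cast h3
      push_cast at h4 ⊢
      exact h4
  · intro z
    apply Subtype.ext
    funext i
    have hz := (mem_smul_polytope τ m _).1 z.2
    have h1 : 0 ≤ z.1 i := by exact_mod_cast hz.1 i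
    exact Int.toNat_of_nonneg h1
  · intro x
    apply Subtype.ext
    funext i
    exact Int.toNat_natCast _

lemma des_eq_desc {n : ℕ} (w : Fin n → Fin n) : des w = desc w := by
  unfold des desc
  apply Finset.card_bij (fun (i : Fin n) _ => (i : ℕ))
  · intro i hi
    rw [Finset.mem_filter] at hi ⊢
    exact ⟨Finset.mem_range.2 i.2, hi.2⟩
  · intro i _ j _ h
    exact Fin.ext h
  · intro i hi
    rw [Finset.mem_filter, Finset.mem_range] at hi
    exact ⟨⟨i, hi.1⟩, Finset.mem_filter.2 ⟨Finset.mem_univ _, hi.2⟩, rfl⟩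

lemma words_eq {n : ℕ} (τ : Arbor n) :
    words τ = Finset.univ.filter (fun w : Fin n → Fin n =>
        ∀ F ∈ fam τ, F.card ≤ (Finset.univ.filter (fun j => w j ∈ F)).card) := by
  unfold words
  ext w
  rw [Finset.mem_filter, Finset.mem_filter]
  constructor
  · rintro ⟨h1, h2⟩
    refine ⟨h1, ?_⟩
    intro F hF
    rw [mem_fam] at hF
    obtain ⟨v, rfl⟩ := hF
    convert h2 v
  · rintro ⟨h1, h2⟩
    refine ⟨h1, ?_⟩
    intro v
    convert h2 (D τ v) (mem_fam.2 ⟨v, rfl⟩)

lemma series_eq {n : ℕ} (τ : Arbor n) :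
    PowerSeries.mk (fun m => (latticePoints (polytope τ) m : ℤ)) *
      (1 - PowerSeries.X) ^ (n + 1) =
    ((∑ w ∈ words τ, (X : ℤ[X]) ^ (n - 1 - des w) : ℤ[X]) : PowerSeries ℤ) := by
  have h1 : ∀ m, (latticePoints (polytope τ) m : ℤ) = ∑ w ∈ words τ, ((VS w m).card : ℤ) := by
    intro m
    rw [latticePoints_eq, card_eq m (fam τ) (lam_fam τ) (univ_mem_fam τ), Fintype.card_fin,
      ← words_matrices m n n (fam τ), words_eq]
    push_cast
    rfl
  have h2 : PowerSeries.mk (fun m => (latticePoints (polytope τ) m : ℤ)) =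
      ∑ w ∈ words τ, PowerSeries.mk (fun m => ((VS w m).card : ℤ)) := by
    ext d
    rw [PowerSeries.coeff_mk, h1, map_sum]
    apply Finset.sum_congr rfl
    intro w _
    rw [PowerSeries.coeff_mk]
  rw [h2, Finset.sum_mul]
  have h3 : ((∑ w ∈ words τ, (X : ℤ[X]) ^ (n - 1 - des w) : ℤ[X]) : PowerSeries ℤ) =
      ∑ w ∈ words τ, (PowerSeries.X : PowerSeries ℤ) ^ (n - 1 - des w) := by
    rw [← Polynomial.coeToPowerSeries.ringHom_apply, map_sum]
    apply Finset.sum_congr rfl
    intro w _
    rw [map_pow, Polynomial.coeToPowerSeries.ringHom_apply, Polynomial.coe_X]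
  rw [h3]
  apply Finset.sum_congr rfl
  intro w _
  rw [mul_comm, series_VS n w]
  congr 1
  have := asc_add_desc w
  rw [des_eq_desc]
  omega

/-- **The h*-polynomial of arbor polytopes.** For every `n ≥ 1` and every arbor `τ` of size `n`,
a polynomial `h` is the h*-polynomial of the arbor polytope of `τ` if and only if
`h = ∑_{w ∈ W_τ} t^(n - 1 - des(w))`. -/
theorem result : ∀ (n : ℕ), 1 ≤ n → ∀ (τ : Arbor n) (h : ℤ[X]),
    IsHStar (polytope τ) h ↔ h = ∑ w ∈ words τ, (X : ℤ[X]) ^ (n - 1 - des w) := by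
  intro n _ τ h
  unfold IsHStar
  rw [series_eq τ]
  constructor
  · intro hh
    exact (Polynomial.coe_injective ℤ hh).symm
  · rintro rfl
    rfl

end Pool.Agent.Results.MP_edc851_co.ArborHStar
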